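import Pool.Agent.E8helper2.ZB.Stm

/-!
# Exactness of `eta` and `eta ^ (p-1)`
-/

set_option autoImplicit false

namespace Pool.Agent.E8helper86.ZB

open Pool.Agent.E8helper2.ZB Module

section abs

variable {K V : Type*} [Field K] [AddCommGroup V] [Module K V]

lemma pow_comm (η m u : Module.End K V) (h1 : η * m = m * η + u) (h2 : Commute u η) :
    ∀ j : ℕ, η ^ (j + 1) * m = m * η ^ (j + 1) + ((j + 1 : ℕ) : Module.End K V) * (η ^ j * u) := by
  intro j
  induction j with
  | zero => simp [h1]
  | succ j ih =>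
    have e1 : η ^ (j + 1 + 1) * m = η * (η ^ (j + 1) * m) := by
      rw [pow_succ' η (j + 1)]; exact mul_assoc _ _ _
    have e2 : η * (((j + 1 : ℕ) : Module.End K V) * (η ^ j * u))
        = ((j + 1 : ℕ) : Module.End K V) * (η ^ (j + 1) * u) := by
      have hc : Commute η ((j + 1 : ℕ) : Module.End K V) := (Nat.cast_commute (j + 1) η).symm
      rw [← mul_assoc, hc.eq, mul_assoc, pow_succ' η j, mul_assoc η]
    have e3 : η * (m * η ^ (j + 1)) = m * η ^ (j + 1 + 1) + η ^ (j + 1) * u := by
      rw [← mul_assoc, h1, add_mul, mul_assoc, ← pow_succ' η (j + 1), (h2.pow_right (j + 1)).eq]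
    rw [e1, ih, mul_add, e2, e3]
    push_cast
    noncomm_ring

theorem exact_abs (p : ℕ) [Fact p.Prime] [CharP K p] (η m u v : Module.End K V)
    (h1 : η * m = m * η + u) (h2 : Commute u η) (h3 : v * u = 1) (h4 : Commute v η) :
    (∀ f : V, η f = 0 → ∃ g, (η ^ (p - 1)) g = f) ∧
      (∀ f : V, (η ^ (p - 1)) f = 0 → ∃ g, η g = f) := by
  have hp : p.Prime := Fact.out
  have hne : ∀ j : ℕ, j + 1 < p → ((j + 1 : ℕ) : K) ≠ 0 := by
    intro j hj h
    rw [CharP.cast_eq_zero_iff K p] at h
    exact absurd (Nat.le_of_dvd (Nat.succ_pos j) h) (by omega)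
  -- the commutation relation applied to vectors
  have hrel : ∀ (j : ℕ) (w : V), (η ^ (j + 1)) (m w)
      = m ((η ^ (j + 1)) w) + ((j + 1 : ℕ) : K) • (η ^ j) (u w) := by
    intro j w
    have h := congrArg (fun T : Module.End K V => T w) (pow_comm η m u h1 h2 j)
    simp only [Module.End.mul_apply, LinearMap.add_apply] at h
    rw [h]
    congr 1
    rw [Nat.cast_smul_eq_nsmul K]
    simp [add_nsmul]
  have hvu : ∀ w : V, v (u w) = w := by
    intro w
    have h := congrArg (fun T : Module.End K V => T w) h3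
    simpa [Module.End.mul_apply] using h
  have hvη : ∀ (j : ℕ) (w : V), v ((η ^ j) w) = (η ^ j) (v w) := by
    intro j w
    have h := congrArg (fun T : Module.End K V => T w) (h4.pow_right j).eq
    simpa [Module.End.mul_apply] using h
  constructor
  · intro f hf
    have key : ∀ j : ℕ, j + 1 ≤ p → ∃ w, (η ^ j) w = f := by
      intro j
      induction j with
      | zero => intro _; exact ⟨f, by simp⟩
      | succ j ih =>
        intro hj
        obtain ⟨w, hw⟩ := ih (by omega)
        have hz : (η ^ (j + 1)) w = 0 := by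
          rw [pow_succ' η j, Module.End.mul_apply, hw, hf]
        have h := hrel j w
        rw [hz, map_zero, zero_add] at h
        have h' := congrArg v h
        rw [hvη, map_smul, hvη, hvu, hw] at h'
        refine ⟨(((j + 1 : ℕ) : K)⁻¹) • v (m w), ?_⟩
        rw [map_smul, h', smul_smul, inv_mul_cancel₀ (hne j (by omega)), one_smul]
    obtain ⟨w, hw⟩ := key (p - 1) (by have := hp.pos; omega)
    exact ⟨w, hw⟩
  · have key : ∀ j : ℕ, j + 1 ≤ p → ∀ f : V, (η ^ j) f = 0 → ∃ g, η g = f := by
      intro j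
      induction j with
      | zero =>
        intro _ f hf
        exact ⟨0, by rw [map_zero]; simpa using hf.symm⟩
      | succ j ih =>
        intro hj f hf
        have h := hrel j f
        rw [hf, map_zero, zero_add] at h
        have h' := congrArg v h
        rw [hvη, map_smul, hvη, hvu] at h'
        have hz : (η ^ j) (f - (((j + 1 : ℕ) : K)⁻¹) • η (v (m f))) = 0 := by
          rw [map_sub, map_smul]
          have : (η ^ j) (η (v (m f))) = (η ^ (j + 1)) (v (m f)) := by
            rw [pow_succ η j, Module.End.mul_apply]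
          rw [this, h', smul_smul, inv_mul_cancel₀ (hne j (by omega)), one_smul, sub_self]
        obtain ⟨g, hg⟩ := ih (by omega) _ hz
        refine ⟨g + (((j + 1 : ℕ) : K)⁻¹) • v (m f), ?_⟩
        rw [map_add, map_smul, hg, sub_add_cancel]
    intro f hf
    exact key (p - 1) (by have := hp.pos; omega) f hf

end abs

section conc

/-- commuting operators in characteristic `p` -/
lemma sum_pow_char_comm {R ι : Type*} [Ring R] (p : ℕ) [Fact p.Prime] [CharP R p]
    (A : ι → R) (s : Finset ι) (h : ∀ i j, Commute (A i) (A j)) :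
    (∑ i ∈ s, A i) ^ p = ∑ i ∈ s, A i ^ p := by
  classical
  induction s using Finset.induction_on with
  | empty => simp [(Fact.out : p.Prime).ne_zero]
  | insert a s ha ih =>
    rw [Finset.sum_insert ha, Finset.sum_insert ha,
      add_pow_char_of_commute _ (Commute.sum_right _ _ _ fun j _ => h a j), ih]

variable {p k : ℕ} [Fact p.Prime] {K : Type} [Field K] [Algebra (ZMod p) K]
  {X : Type} [MulAction (GG p k) X]

/-- the product of the multiplication by `a` and of the shift by the generator `i` -/
def sh (a : X → K) (i : Fin k) : Module.End K (X → K) where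
  toFun F σ := a σ * F (gen p k i • σ)
  map_add' F G := by funext σ; simp only [Pi.add_apply]; ring
  map_smul' c F := by
    funext σ; simp only [Pi.smul_apply, smul_eq_mul, RingHom.id_apply]; ring

lemma sh_apply (a : X → K) (i : Fin k) (F : X → K) (σ : X) :
    sh (p := p) a i F σ = a σ * F (gen p k i • σ) := rfl

lemma sh_comm (a b : X → K) (i j : Fin k) (ha : ∀ (g : GG p k) σ, a (g • σ) = a σ)
    (hb : ∀ (g : GG p k) σ, b (g • σ) = b σ) :
    Commute (sh (p := p) a i) (sh (p := p) b j) := by
  refine LinearMap.ext fun F => funext fun σ => ?_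
  simp only [Module.End.mul_apply, sh_apply]
  rw [ha, hb, smul_smul, smul_smul, mul_comm (gen p k i)]
  ring

lemma sh_pow (a : X → K) (i : Fin k) (ha : ∀ (g : GG p k) σ, a (g • σ) = a σ) (n : ℕ)
    (F : X → K) (σ : X) :
    ((sh (p := p) a i) ^ n) F σ = a σ ^ n * F ((gen p k i) ^ n • σ) := by
  induction n generalizing σ with
  | zero => simp
  | succ n ih =>
    rw [pow_succ', Module.End.mul_apply, sh_apply, ih, ha, smul_smul, ← pow_succ (gen p k i)]
    ring

lemma gen_pow_p (i : Fin k) : (gen p k i) ^ p = 1 := by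
  unfold gen
  rw [← ofAdd_nsmul]
  have : p • (Pi.single i 1 : Fin k → ZMod p) = 0 := by
    funext j
    simp
  rw [this]
  rfl

theorem ex : S_EX := by
  intro p k _ K _ _ X _ ξ hyp
  classical
  have hp : p.Prime := Fact.out
  rcases isEmpty_or_nonempty X with hX | hX
  · exact ⟨fun f _ => ⟨0, Subsingleton.elim _ _⟩, fun f _ => ⟨0, Subsingleton.elim _ _⟩⟩
  have : CharP K p := charP_of_injective_algebraMap (algebraMap (ZMod p) K).injective p
  have : CharP (Module.End K (X → K)) p :=
    charP_of_injective_algebraMap (algebraMap K (Module.End K (X → K))).injective p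
  -- representatives of the orbits
  let Q := MulAction.orbitRel.Quotient (GG p k) X
  let rep : X → X := fun σ => Quotient.out (Quotient.mk (MulAction.orbitRel (GG p k) X) σ)
  have hrep : ∀ (g : GG p k) σ, rep (g • σ) = rep σ := by
    intro g σ
    have : (Quotient.mk (MulAction.orbitRel (GG p k) X) (g • σ)) = Quotient.mk _ σ := by
      refine Quotient.sound ?_
      exact ⟨g, rfl⟩
    show Quotient.out _ = Quotient.out _
    rw [this]
  have hex : ∀ σ, ∃ g : GG p k, g • rep σ = σ := by
    intro σ
    have h : MulAction.orbitRel (GG p k) X (rep σ) σ := Quotient.mk_out (s := MulAction.orbitRel (GG p k) X) σ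
    obtain ⟨g, hg⟩ := (MulAction.orbitRel (GG p k) X).symm h
    exact ⟨g, hg⟩
  choose ch hch1 hch2 using hyp
  choose el hel using hex
  -- the function
  let χ : X → Fin k → ZMod p := fun σ => ch (rep σ)
  let f : X → ZMod p := fun σ => ∑ i, χ σ i * (el σ).toAdd i
  have hχ : ∀ (g : GG p k) σ, χ (g • σ) = χ σ := by
    intro g σ; show ch _ = ch _; rw [hrep]
  have hf : ∀ (g : GG p k) σ, f (g • σ) = f σ + ∑ i, χ σ i * g.toAdd i := by
    intro g σ
    have h1 : ((el (g • σ))⁻¹ * (g * el σ)) • rep σ = rep σ := by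
      rw [mul_smul, mul_smul, hel σ, inv_smul_eq_iff]
      conv_rhs => rw [← hrep g σ]
      exact (hel (g • σ)).symm
    have h2 := hch1 (rep σ) _ h1
    have h3 : ∑ i, ch (rep σ) i * ((el (g • σ))⁻¹ * (g * el σ)).toAdd i
        = (∑ i, χ σ i * g.toAdd i) + f σ - f (g • σ) := by
      show _ = (∑ i, χ σ i * g.toAdd i) + (∑ i, χ σ i * (el σ).toAdd i)
        - ∑ i, χ (g • σ) i * (el (g • σ)).toAdd i
      rw [hχ, ← Finset.sum_add_distrib, ← Finset.sum_sub_distrib]
      refine Finset.sum_congr rfl fun i _ => ?_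
      show _ * (-(el (g • σ)).toAdd i + (g.toAdd i + (el σ).toAdd i)) = _
      ring
    rw [h3] at h2
    linear_combination -h2
  let c : X → K := fun σ => ∑ i, algebraMap (ZMod p) K (χ σ i) * ξ i
  have hc0 : ∀ σ, c σ ≠ 0 := fun σ => hch2 (rep σ)
  have hcg : ∀ (g : GG p k) σ, c (g • σ) = c σ := by
    intro g σ; show ∑ i, _ = ∑ i, _; rw [hχ]
  let a : Fin k → X → K := fun i σ => algebraMap (ZMod p) K (χ σ i) * ξ i
  have hag : ∀ i (g : GG p k) σ, a i (g • σ) = a i σ := by
    intro i g σ; show _ * _ = _ * _; rw [hχ]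
  let m : Module.End K (X → K) := LinearMap.mulLeft K (fun σ => algebraMap (ZMod p) K (f σ))
  let u : Module.End K (X → K) := ∑ i, sh (p := p) (a i) i
  let d : Module.End K (X → K) := LinearMap.mulLeft K (fun σ => (c σ ^ p)⁻¹)
  have hua : ∀ F σ, u F σ = ∑ i, a i σ * F (gen p k i • σ) := by
    intro F σ
    show (∑ i, sh (p := p) (a i) i) F σ = _
    rw [LinearMap.sum_apply, Finset.sum_apply]
    rfl
  have h1 : eta p X ξ * m = m * eta p X ξ + u := by
    refine LinearMap.ext fun F => funext fun σ => ?_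
    rw [Module.End.mul_apply, LinearMap.add_apply, Module.End.mul_apply, Pi.add_apply, hua]
    show ∑ i, ξ i * (algebraMap (ZMod p) K (f (gen p k i • σ)) * F (gen p k i • σ)
        - algebraMap (ZMod p) K (f σ) * F σ)
      = algebraMap (ZMod p) K (f σ) * (∑ i, ξ i * (F (gen p k i • σ) - F σ))
        + ∑ i, algebraMap (ZMod p) K (χ σ i) * ξ i * F (gen p k i • σ)
    rw [Finset.mul_sum, ← Finset.sum_add_distrib]
    refine Finset.sum_congr rfl fun i _ => ?_
    have h2 : f (gen p k i • σ) = f σ + χ σ i := by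
      rw [hf]
      congr 1
      rw [Finset.sum_eq_single i]
      · simp [gen]
      · intro j _ hj
        simp [gen, Pi.single_eq_of_ne hj]
      · intro h; exact absurd (Finset.mem_univ i) h
    rw [h2, map_add]
    ring
  have heta : ∀ b : X → K, (∀ (g : GG p k) σ, b (g • σ) = b σ) →
      Commute (LinearMap.mulLeft K b : Module.End K (X → K)) (eta p X ξ) := by
    intro b hb
    refine LinearMap.ext fun F => funext fun σ => ?_
    show b σ * (∑ i, ξ i * (F (gen p k i • σ) - F σ))
      = ∑ i, ξ i * (b (gen p k i • σ) * F (gen p k i • σ) - b σ * F σ)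
    rw [Finset.mul_sum]
    refine Finset.sum_congr rfl fun i _ => ?_
    rw [hb]; ring
  have h2 : Commute u (eta p X ξ) := by
    refine Commute.sum_left _ _ _ fun j _ => ?_
    refine LinearMap.ext fun F => funext fun σ => ?_
    show a j σ * (∑ i, ξ i * (F (gen p k i • gen p k j • σ) - F (gen p k j • σ)))
      = ∑ i, ξ i * (a j (gen p k i • σ) * F (gen p k j • gen p k i • σ) - a j σ * F (gen p k j • σ))
    rw [Finset.mul_sum]
    refine Finset.sum_congr rfl fun i _ => ?_
    rw [hag, smul_smul, smul_smul, mul_comm (gen p k i)]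
    ring
  have hup : u ^ p = LinearMap.mulLeft K (fun σ => c σ ^ p) := by
    have e : u ^ p = ∑ i, (sh (p := p) (a i) i) ^ p :=
      sum_pow_char_comm p _ _ fun i j => sh_comm _ _ _ _ (hag i) (hag j)
    rw [e]
    refine LinearMap.ext fun F => funext fun σ => ?_
    rw [LinearMap.sum_apply, Finset.sum_apply]
    show _ = c σ ^ p * F σ
    have e2 : c σ ^ p = ∑ i, a i σ ^ p := sum_pow_char p _ _
    rw [e2, Finset.sum_mul]
    refine Finset.sum_congr rfl fun i _ => ?_
    rw [sh_pow _ _ (hag i), gen_pow_p, one_smul]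
  have h3 : (d * u ^ (p - 1)) * u = 1 := by
    rw [mul_assoc, ← pow_succ, Nat.sub_add_cancel hp.one_le, hup]
    refine LinearMap.ext fun F => funext fun σ => ?_
    show (c σ ^ p)⁻¹ * (c σ ^ p * F σ) = F σ
    rw [← mul_assoc, inv_mul_cancel₀ (pow_ne_zero _ (hc0 σ)), one_mul]
  have h4 : Commute (d * u ^ (p - 1)) (eta p X ξ) := by
    refine Commute.mul_left (heta _ ?_) (h2.pow_left _)
    intro g σ
    show (c (g • σ) ^ p)⁻¹ = _
    rw [hcg]
  exact exact_abs p (eta p X ξ) m u _ h1 h2 h3 h4

end conc

end Pool.Agent.E8helper86.ZB
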