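import Pool.Agent.E8helper2.ZB.Stm3

/-!
# From isotropy groups on posets to smooth actions on closed manifolds

A lower bound for the isotropy groups of a finite abelian group `P` on finite posets, in terms of the total mod `q`
Betti number, gives the divisibility `|P| ∣ s c ^ (B - 1)` for smooth actions on closed connected manifolds, where `s`
is divisible by the orders of all subgroups fixing a point.
-/

set_option autoImplicit false

namespace Pool.Agent.E8helper86.ZB

open Metric Set Module Pool.Agent.Helper381 Pool.Agent.H185.ZM Pool.Agent.E8helper2.ZB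
open scoped Manifold ContDiff

/-- isotropy groups on finite posets: `|P|` divides `|P_x| c ^ (B - 1)` for some `x` -/
def PosB (P : Type) [CommGroup P] (q c : ℕ) [Fact q.Prime] : Prop :=
  ∀ (T : Type) [PartialOrder T] [MulAction P T] (Q : Set T), Q.Finite →
    Q.Nonempty → (∀ g : P, StrictMono (fun x : T => g • x)) → (∀ (g : P), ∀ x ∈ Q, g • x ∈ Q) →
      ∃ x ∈ Q, Nat.card P ∣ Nat.card (MulAction.stabilizer P x) *
        c ^ (∑ n ∈ Finset.range Q.ncard, finrank (ZMod q) (OrdCoh (ZMod q) Q n) - 1)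

section

variable {M : Type} {E : Type} [MetricSpace M] [NormedAddCommGroup E] [NormedSpace ℝ E]
  {R : ℝ}

theorem fam_nonempty [Nonempty M] {F : Finset M} {ρ : ℝ} (hF : ∀ x : M, ∃ p ∈ F, dist p x < ρ) :
    (Fam F ρ).Nonempty := by
  obtain ⟨x⟩ := (inferInstance : Nonempty M)
  obtain ⟨C, hC, _⟩ := Fam_cover F ρ hF x
  exact ⟨C, hC⟩

theorem geo_betti (G : Geo M E R) [CompactSpace M] [Nonempty M] {P : Type} [CommGroup P] [Finite P]
    (a : P →* (M ≃ᵢ M)) {q c : ℕ} [Fact q.Prime] (hP : PosB P q c) (s : ℕ)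
    (h : ∀ (x : M) (Q : Subgroup P), (∀ g ∈ Q, a g x = x) → Nat.card Q ∣ s) :
    totalBetti (ZMod q) M ≠ ⊤ ∧ Nat.card P ∣ s * c ^ ((totalBetti (ZMod q) M).toNat - 1) := by
  classical
  have hR := G.Rpos
  obtain ⟨F, hF, hFa⟩ := exists_invariant_net a (R / 4) (by linarith)
  have hρR : 4 * (R / 4) ≤ R := by linarith
  set ρ := R / 4 with hρ
  have hQ := Fam_finite F ρ
  letI act : MulAction P (Set M) :=
    { smul := fun p C => a p '' C
      one_smul := fun C => by
        show a 1 '' C = C
        rw [map_one]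
        exact Set.image_id C
      mul_smul := fun p q C => by
        show a (p * q) '' C = a p '' (a q '' C)
        rw [map_mul, Set.image_image]
        rfl }
  have hsm : ∀ p : P, StrictMono (fun C : Set M => p • C) := fun p =>
    (a p).injective.image_strictMono
  have hmem : ∀ (p : P), ∀ C ∈ Fam F ρ, p • C ∈ Fam F ρ := fun p C hC =>
    image_Fam F ρ (a p) (hFa p) hC
  obtain ⟨C, hC, hdvd⟩ := hP (Set M) (Fam F ρ) hQ (fam_nonempty hF) hsm hmem
  -- total Betti number
  have e1 : ∀ n, finrank (ZMod q) (SingCoh (ZMod q) M n) =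
      finrank (ZMod q) (OrdCoh (ZMod q) (Fam F ρ) n) := by
    intro n
    obtain ⟨e⟩ := G.nerve hρR hF (ZMod q) n
    exact LinearEquiv.finrank_eq e
  have hB := totalBetti_eq (Fam F ρ).ncard (G.betti_finite (ZMod q)).1 (fun n hn => by
    rw [e1]
    exact ordcoh_top hQ (ZMod q) n hn)
  have hs : Nat.card (MulAction.stabilizer P C) ∣ s := by
    obtain ⟨y, _, hy⟩ := G.fam_fixed hρR hC
    apply h y
    intro g hg
    exact hy (a g) (hFa g) hg
  refine ⟨by rw [hB]; exact ENat.natCast_ne_top _, ?_⟩
  have h3 : (totalBetti (ZMod q) M).toNat =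
      ∑ n ∈ Finset.range (Fam F ρ).ncard, finrank (ZMod q) (OrdCoh (ZMod q) (Fam F ρ) n) := by
    rw [hB, ENat.toNat_natCast]
    exact Finset.sum_congr rfl fun n _ => e1 n
  rw [h3]
  exact hdvd.trans (mul_dvd_mul_right hs _)

end

section

variable {E : Type} [NormedAddCommGroup E] [NormedSpace ℝ E] [FiniteDimensional ℝ E]
  {M : Type} [TopologicalSpace M] [ChartedSpace E M] [IsManifold 𝓘(ℝ, E) ∞ M]

theorem smooth_betti [CompactSpace M] [T2Space M] [ConnectedSpace M] {P : Type} [CommGroup P]
    [Finite P] {q c : ℕ} [Fact q.Prime] (hP : PosB P q c) {a : P → M → M} (ha : SmoothAction E a) (s : ℕ)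
    (h : ∀ (x : M) (Q : Subgroup P), (∀ g ∈ Q, a g x = x) → Nat.card Q ∣ s) :
    totalBetti (ZMod q) M ≠ ⊤ ∧ Nat.card P ∣ s * c ^ ((totalBetti (ZMod q) M).toNat - 1) := by
  obtain ⟨W, _, _, _, F, T, hF⟩ := exists_equi ha
  let g := hF.metric
  obtain ⟨R, G⟩ := Q145.TN.exists_geo g
  let _ := Q145.TN.mS g
  let b : P →* (M ≃ᵢ M) :=
    { toFun := fun p =>
        { toFun := a p
          invFun := a p⁻¹
          left_inv := fun x => by rw [← ha.mul, inv_mul_cancel, ha.one]
          right_inv := fun x => by rw [← ha.mul, mul_inv_cancel, ha.one]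
          isometry_toFun := fun x y => by
            show (Q145.TN.mS g).toPseudoMetricSpace.toPseudoEMetricSpace.edist _ _ =
              (Q145.TN.mS g).toPseudoMetricSpace.toPseudoEMetricSpace.edist _ _
            rw [Q145.TN.edist_mS, Q145.TN.edist_mS]
            exact hF.dist_eq ha p x y }
      map_one' := by
        ext x
        exact ha.one x
      map_mul' := fun p q => by
        ext x
        exact ha.mul p q x }
  have : Nonempty M := inferInstance
  exact geo_betti G b hP s (fun x Q hQ => h x Q fun q hq => hQ q hq)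

/-- Passing to the quotient by the kernel. -/
theorem ker_step [CompactSpace M] [T2Space M] [ConnectedSpace M] {P : Type} [CommGroup P]
    [Finite P] {a : P → M → M} (ha : SmoothAction E a) (K : ℕ)
    (h : ∀ (b : P ⧸ actKer ha → M → M), SmoothAction E b → (∀ x, (∀ y, b x y = y) → x = 1) →
      Nat.card (P ⧸ actKer ha) ∣ K) : Nat.card P ∣ Nat.card (actKer ha) * K := by
  let b : P ⧸ actKer ha → M → M := fun x y => Quotient.liftOn' x (fun q => a q y) (fun q r h => by
    rw [QuotientGroup.leftRel_apply] at h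
    have h1 := h y
    show a q y = a r y
    conv_lhs => rw [← h1]
    rw [← ha.mul, mul_inv_cancel_left])
  have hb1 : SmoothAction E b :=
    { one := fun y => ha.one y
      mul := fun x q y => by
        refine QuotientGroup.induction_on x fun x => QuotientGroup.induction_on q fun q => ?_
        exact ha.mul x q y
      smooth := fun x => by
        refine QuotientGroup.induction_on x fun x => ?_
        exact ha.smooth x }
  have h1 := h b hb1 (fun x hx => by
      induction x using QuotientGroup.induction_on with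
      | _ x =>
        rw [QuotientGroup.eq_one_iff]
        exact hx)
  rw [← Subgroup.card_mul_index (actKer ha)]
  exact mul_dvd_mul_left _ h1

theorem quot_pow {P : Type} [CommGroup P] (m : ℕ) (hpow : ∀ x : P, x ^ m = 1) (K : Subgroup P)
    (x : P ⧸ K) : x ^ m = 1 := by
  refine QuotientGroup.induction_on x fun x => ?_
  rw [← QuotientGroup.mk_pow, hpow]
  rfl

end

/-- an abelian group with `x ^ 2 = 1` acting faithfully on a real vector space of dimension `n` has an order dividing
`2 ^ n` -/
theorem card_dvd_cst {p : ℕ} (hp : p.Prime) {V : Type} [AddCommGroup V]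
    [Module ℝ V] [FiniteDimensional ℝ V] {A : Type} [CommGroup A] [Finite A]
    (ρ : A →* (V →ₗ[ℝ] V)) (hpow : ∀ a : A, a ^ p = 1)
    (hinj : Function.Injective ρ) : Nat.card A ∣ cst p (finrank ℝ V) := by
  unfold cst
  split_ifs with h
  · subst h
    exact card_dvd_two_pow ρ (fun a => by
      rw [show (4 : ℕ) = 2 * 2 by norm_num, pow_mul, hpow a]; exact one_pow 2) hinj
  · exact card_dvd_p_pow hp h ρ hpow hinj

theorem posB_of (h : S_POS) (p : ℕ) [Fact p.Prime] (P : Type) [CommGroup P] [Finite P]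
    (hpow : ∀ x : P, x ^ p = 1) : PosB P p p :=
  fun T _ _ Q h1 h2 h3 h4 => h p P hpow T Q h1 h2 h3 h4

theorem man (h : S_POS) : S_MAN := by
  intro p hp E _ _ _ M _ _ _ _ _ _ P _ _ hpow a ha
  have h1 : totalBetti (ZMod p) M ≠ ⊤ :=
    (smooth_betti (posB_of h p P hpow) ha (Nat.card P) (fun x Q _ => Subgroup.card_subgroup_dvd_card Q)).1
  refine ⟨h1, ?_⟩
  apply ker_step ha
  intro b hb hf
  refine (smooth_betti (posB_of h p (P ⧸ actKer ha) (quot_pow p hpow _)) hb (cst p (finrank ℝ E)) ?_).2
  intro x Q hQ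
  obtain ⟨V, _, _, _, ρ, hV, hρ⟩ := exists_isotropy hb hf x Q hQ
  rw [← hV]
  exact card_dvd_cst hp.out ρ (fun q => Subtype.ext (quot_pow p hpow _ (q : P ⧸ actKer ha))) hρ

/-- exponent four, from the statement for posets -/
theorem man4 (h : ∀ (P : Type) [CommGroup P] [Finite P], (∀ x : P, x ^ 4 = 1) →
    haveI : Fact (Nat.Prime 2) := ⟨Nat.prime_two⟩; PosB P 2 4) : S_MAN4 := by
  intro E _ _ _ M _ _ _ _ _ _ P _ _ hpow a ha
  have : Fact (Nat.Prime 2) := ⟨Nat.prime_two⟩
  apply ker_step ha
  intro b hb hf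
  refine (smooth_betti (h (P ⧸ actKer ha) (quot_pow 4 hpow _)) hb (2 ^ (finrank ℝ E)) ?_).2
  intro x Q hQ
  obtain ⟨V, _, _, _, ρ, hV, hρ⟩ := exists_isotropy hb hf x Q hQ
  rw [← hV]
  exact card_dvd_two_pow ρ (fun q => Subtype.ext (quot_pow 4 hpow _ (q : P ⧸ actKer ha))) hρ

end Pool.Agent.E8helper86.ZB
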