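import Pool.Agent.E8helper86.ZB.Man
import Pool.Agent.E8helper2.ZB.Pos4

/-!
# Smooth actions on closed manifolds: the two statements
-/

set_option autoImplicit false

namespace Pool.Agent.E8helper86.ZB

open Pool.Agent.E8helper2.ZB

theorem manU : S_MAN := man pos

theorem manU4 : S_MAN4 := man4 fun P _ _ hpow => fun T _ _ Q h1 h2 h3 h4 =>
  pos4 P hpow T Q h1 h2 h3 h4

end Pool.Agent.E8helper86.ZB
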